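import Mathlib
import Pool.Agent.Helper8.HitCore

/-!
# Linear speed-up bound for the hitting time of `k` parallel random walks

For every finite strongly connected directed graph (loops allowed, undirected graphs are the
symmetric case) and every `k ≥ 1`, `h_max ≤ k * h^k_max`.
-/

namespace Pool.Agent.Results.MP_990fd9_pr.LinearSpeedup

open Finset
open scoped ENNReal Classical

variable {V : Type} [Fintype V]

/-- Transition probability of the simple random walk on the digraph with arc relation `E`:
from `u` it moves to a uniformly random out-neighbour of `u`. -/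
noncomputable def step (E : V → V → Prop) (u w : V) : ℝ :=
  if E u w then 1 / ((Finset.univ.filter (fun y => E u y)).card : ℝ) else 0

/-- `notHit E v t u` is the probability that the simple random walk started at `u` is not at `v`
at any of the times `0, 1, ..., t`, that is, the probability that its hitting time of `v`
exceeds `t` (first-step recursion). -/
noncomputable def notHit (E : V → V → Prop) (v : V) : ℕ → V → ℝ
  | 0, u => if u = v then 0 else 1
  | t + 1, u => if u = v then 0 else ∑ w, step E u w * notHit E v t w

/-- Expected hitting time `h(u, v)`, by the tail-sum formula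
`E[T] = ∑_{t ≥ 0} P(T > t)`. -/
noncomputable def h (E : V → V → Prop) (u v : V) : ℝ≥0∞ :=
  ∑' t : ℕ, ENNReal.ofReal (notHit E v t u)

/-- Expected joint hitting time `h({u_1, ..., u_k}, v)` of `k` independent walks:
the minimum of the `k` hitting times exceeds `t` exactly when all of them do, and by
independence this has probability the product of the single probabilities. -/
noncomputable def hJoint (E : V → V → Prop) (k : ℕ) (u : Fin k → V) (v : V) : ℝ≥0∞ :=
  ∑' t : ℕ, ENNReal.ofReal (∏ i, notHit E v t (u i))

/-- `h_max`. -/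
noncomputable def hMax (E : V → V → Prop) : ℝ≥0∞ := ⨆ u : V, ⨆ v : V, h E u v

/-- `h^k_max`. -/
noncomputable def hkMax (E : V → V → Prop) (k : ℕ) : ℝ≥0∞ :=
  ⨆ u : Fin k → V, ⨆ v : V, hJoint E k u v

/-- The digraph with arc relation `E` is strongly connected. -/
def StronglyConnected (E : V → V → Prop) : Prop := ∀ a b : V, Relation.ReflTransGen E a b

lemma step_nonneg (E : V → V → Prop) (u w : V) : 0 ≤ step E u w := by
  unfold step; split_ifs <;> positivity

lemma notHit_eq (E : V → V → Prop) (v : V) (t : ℕ) (u : V) :
    notHit E v t u = Pool.Agent.Helper8.HitCore.surv (step E) v t u := by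
  induction t generalizing u with
  | zero => simp only [notHit, Pool.Agent.Helper8.HitCore.surv]
  | succ t ih =>
    simp only [notHit, Pool.Agent.Helper8.HitCore.surv, ih]

lemma notHit_nonneg (E : V → V → Prop) (v : V) (t : ℕ) (u : V) : 0 ≤ notHit E v t u := by
  rw [notHit_eq]
  exact Pool.Agent.Helper8.HitCore.surv_nonneg _ (step_nonneg E) _ _ _

theorem result :
    ∀ (V : Type) [Fintype V] (E : V → V → Prop), StronglyConnected E →
      ∀ k : ℕ, 1 ≤ k → hMax E ≤ (k : ℝ≥0∞) * hkMax E k := by
  intro V _ E _ k hk
  obtain ⟨m, rfl⟩ : ∃ m, k = m + 1 := ⟨k - 1, by omega⟩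
  unfold hMax
  refine iSup_le fun x => iSup_le fun v => ?_
  unfold h
  refine ENNReal.tsum_le_of_sum_range_le fun T => ?_
  -- the maximal truncated value
  let F : (Fin m → V) → ℝ := fun b =>
    ∑ t ∈ range T, notHit E v t x * ∏ i, notHit E v t (b i)
  have hne : (Finset.univ : Finset (Fin m → V)).Nonempty := ⟨fun _ => x, Finset.mem_univ _⟩
  obtain ⟨b0, -, hb0⟩ := Finset.exists_max_image Finset.univ F hne
  have hF0 : 0 ≤ F b0 := Finset.sum_nonneg fun t _ =>
    mul_nonneg (notHit_nonneg _ _ _ _) (Finset.prod_nonneg fun i _ => notHit_nonneg _ _ _ _)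
  have key := Pool.Agent.Helper8.HitCore.finite_horizon (step E) (step_nonneg E) v x m T
    (F b0) hF0 (by
      intro b
      have := hb0 b (Finset.mem_univ _)
      simpa only [F, notHit_eq] using this)
  rw [← ENNReal.ofReal_sum_of_nonneg (fun t _ => notHit_nonneg _ _ _ _)]
  simp only [notHit_eq]
  refine (ENNReal.ofReal_le_ofReal key).trans ?_
  rw [ENNReal.ofReal_mul (by positivity)]
  have h1 : ENNReal.ofReal ((m : ℝ) + 1) = ((m + 1 : ℕ) : ℝ≥0∞) := by
    rw [← Nat.cast_succ, ENNReal.ofReal_natCast]
  rw [h1]
  gcongr
  have h2 : ENNReal.ofReal (F b0) ≤ hJoint E (m + 1) (Fin.cons x b0) v := by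
    unfold hJoint
    simp only [F]
    rw [ENNReal.ofReal_sum_of_nonneg (fun t _ =>
      mul_nonneg (notHit_nonneg _ _ _ _) (Finset.prod_nonneg fun i _ => notHit_nonneg _ _ _ _))]
    refine le_trans (le_of_eq ?_) (ENNReal.sum_le_tsum (Finset.range T))
    apply Finset.sum_congr rfl
    intro t _
    rw [Fin.prod_univ_succ]
    simp
  refine h2.trans ?_
  unfold hkMax
  exact le_iSup_of_le (Fin.cons x b0) (le_iSup_of_le v le_rfl)

end Pool.Agent.Results.MP_990fd9_pr.LinearSpeedup
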